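import Pool.Agent.U41.OD.Stm

/-! Project OD, package A: regularity of the local rings of the last chart. -/

set_option autoImplicit false
set_option linter.unusedVariables false

open scoped Pointwise

namespace Pool.Agent.U41.OD

open Pool.Agent.H918R2.Quad Pool.Agent.H945R2.E Pool.Agent.W418 Pool.Agent.TH214.RM MvPolynomial

namespace AAux

variable {R σ : Type} [CommRing R]

theorem hc2_mem (g : MvPolynomial σ R) : homogeneousComponent 2 g ∈ idealOfVars σ R ^ 2 := by
  rw [mem_pow_idealOfVars_iff']
  intro x hx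
  rw [coeff_homogeneousComponent, if_neg (by omega)]

theorem sub_const_mem (h : MvPolynomial σ R) : h - C (constantCoeff h) ∈ idealOfVars σ R := by
  classical
  have h1 : h - C (constantCoeff h) ∈ idealOfVars σ R ^ 1 := by
    rw [mem_pow_idealOfVars_iff']
    intro x hx
    have hx0 : x = 0 := by
      rw [← Finsupp.degree_eq_zero_iff]
      omega
    subst hx0
    rw [coeff_sub, coeff_C, if_pos rfl, constantCoeff_eq, sub_self]
  rwa [pow_one] at h1

end AAux

open AAux

theorem A_ok (hEA : S_EA) : S_A := by
  intro R F σ _ _ _ _ _ _ _ π k g y z 𝒪 hπ hg hloc hR hRU hyg hind hinj hyz hz hfr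
  obtain ⟨j₀, hj₀⟩ := hind
  obtain ⟨E, T, u, hu, hE1, hE2, hT⟩ := hEA π k g hg
  obtain ⟨v, hv, hgv⟩ := hg.const
  have hπ0 : π ≠ 0 := hπ.ne_zero
  set J := k / 2 with hJ
  let I : Ideal (MvPolynomial σ R) := Ideal.span {E}
  let eW : MvPolynomial σ R →ₐ[R] F := aeval z
  have heC : ∀ r, eW (C r) = algebraMap R F r := fun r => aeval_C _ r
  have heX : ∀ j, eW (X j) = z j := fun j => aeval_X _ j
  have heW : ∀ w, eW w ∈ 𝒪 := by
    intro w
    induction w using MvPolynomial.induction_on with
    | C r => rw [heC]; exact hR r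
    | add p q hp hq => rw [map_add]; exact 𝒪.add_mem hp hq
    | mul_X p j hp => rw [map_mul, heX]; exact 𝒪.mul_mem hp (hz _)
  have hfac : ∀ N : ℕ, algebraMap R F (π ^ N) ≠ 0 := fun N => by
    rw [Ne, map_eq_zero_iff _ hinj]
    exact pow_ne_zero _ hπ0
  have heY : ∀ l, eW (C (π ^ J) * X l) = y l := by
    intro l
    rw [map_mul, heC, heX, hyz l, map_pow]
  have hEt : eW E = 0 := by
    have h1 : eW (aeval (fun l => C (π ^ J) * X l : σ → MvPolynomial σ R) g) = 0 := by
      rw [← AlgHom.comp_apply]
      have h2 : eW.comp (aeval (fun l => C (π ^ J) * X l : σ → MvPolynomial σ R)) =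
          (aeval y : MvPolynomial σ R →ₐ[R] F) := by
        apply MvPolynomial.algHom_ext
        intro l
        rw [AlgHom.comp_apply, aeval_X, aeval_X, heY]
      rw [h2, hyg]
    rw [hE1, map_mul, heC] at h1
    exact (mul_eq_zero.1 h1).resolve_left (hfac _)
  have hI : ∀ w ∈ I, eW w = 0 := by
    intro w hw
    obtain ⟨c, rfl⟩ := Ideal.mem_span_singleton.1 hw
    rw [map_mul, hEt, zero_mul]
  have hadj : ∀ a ∈ Algebra.adjoin R (Set.range z), ∃ w, eW w = a := by
    intro a ha
    rw [Algebra.adjoin_range_eq_range_aeval] at ha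
    exact ha
  have hfrac : ∀ x ∈ 𝒪, ∃ a b : MvPolynomial σ R, eW b ≠ 0 ∧ (eW b)⁻¹ ∈ 𝒪 ∧
      x = eW a / eW b := by
    intro x hx
    obtain ⟨a, ha, b, hb, hU, hxab⟩ := hfr x hx
    obtain ⟨a', rfl⟩ := hadj a ha
    obtain ⟨b', rfl⟩ := hadj b hb
    exact ⟨a', b', hU.1, hU.2.2, hxab⟩
  obtain ⟨A, _, _, pr, hpr, hprk, hpr0⟩ := exists_quot (R := R) I
  have hgne : g ≠ 0 := by
    intro h
    rw [h, map_zero] at hgv
    exact mul_ne_zero (pow_ne_zero k hπ0) hv.ne_zero hgv.symm
  refine regular_of_pres 𝒪 hloc pr hpr eW ?_ heW hfrac ?_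
    (fun l => C (π ^ J) * X l : σ → MvPolynomial σ R) g hgne ?_ j₀ ?_ ?_
  · intro w hw
    exact hI w ((hpr0 w).1 hw)
  · intro q hq hqm
    have hEq : pr E = 0 := (hpr0 E).2 (Ideal.mem_span_singleton_self _)
    let Q : Ideal (MvPolynomial σ R) := q.comap (pr : _ →+* A)
    have hQ : Q.IsPrime := Ideal.comap_isPrime _ _
    have hEQ : E ∈ Q := by
      change pr E ∈ q
      rw [hEq]
      exact q.zero_mem
    have hCQ : ∀ r : R, C r ∈ Q ↔ ¬ IsUnit r := by
      intro r
      change pr (C r) ∈ q ↔ _
      rw [hqm, heC]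
      refine not_congr ⟨hRU r, fun h => ?_⟩
      obtain ⟨u, rfl⟩ := h
      have h1 : algebraMap R F (u : R) * algebraMap R F ((u⁻¹ : Rˣ) : R) = 1 := by
        rw [← map_mul, Units.mul_inv, map_one]
      refine ⟨left_ne_zero_of_mul_eq_one h1, hR _, ?_⟩
      rw [inv_eq_of_mul_eq_one_right h1]
      exact hR _
    by_cases hex : ∃ l, pderiv l E ∉ Q
    · obtain ⟨l, hl⟩ := hex
      exact regular_of_pderiv E (pr : _ →+* A) hpr hprk q l hl
    · have hall : ∀ l, pderiv l E ∈ Q := by
        intro l
        by_contra h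
        exact hex ⟨l, h⟩
      have hπQ : (C π : MvPolynomial σ R) ∈ Q := (hCQ π).2 hπ.not_isUnit
      have hder : ∀ l, pderiv l (homogeneousComponent 2 g) ∈ Q := by
        intro l
        have h1 : pderiv l E = pderiv l (homogeneousComponent 2 g) + C π * pderiv l T := by
          rw [hE2, map_add, map_add, pderiv_C, add_zero, pderiv_C_mul]
        have h2 : pderiv l (homogeneousComponent 2 g) = pderiv l E - C π * pderiv l T := by
          rw [h1]; ring
        rw [h2]
        exact Q.sub_mem (hall l) (Q.mul_mem_right _ hπQ)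
      have hX : ∀ l, (X l : MvPolynomial σ R) ∈ Q := by
        intro l
        have h1 : Ideal.span (Set.range fun j => pderiv j (homogeneousComponent 2 g)) ≤ Q := by
          rw [Ideal.span_le]
          rintro _ ⟨j, rfl⟩
          exact hder j
        exact h1 (hg.quad l)
      have hV : idealOfVars σ R ≤ Q := by
        rw [idealOfVars, Ideal.span_le]
        rintro _ ⟨j, rfl⟩
        exact hX j
      have hTQ : T ∈ Q := hV hT
      have hg2 : homogeneousComponent 2 g ∈ Q ^ 2 := Ideal.pow_right_mono hV 2 (hc2_mem g)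
      have hcon : ∀ h : MvPolynomial σ R, h ∈ Q ↔ constantCoeff h ∈ Ideal.span {π} := by
        intro h
        have h1 : h ∈ Q ↔ C (constantCoeff h) ∈ Q := by
          have h2 := hV (sub_const_mem h)
          constructor
          · intro h3
            have := Q.sub_mem h3 h2
            rwa [sub_sub_cancel] at this
          · intro h3
            have := Q.add_mem h2 h3
            rwa [sub_add_cancel] at this
        rw [h1, hCQ, ← hπ.maximalIdeal_eq, IsLocalRing.mem_maximalIdeal]
        rfl
      have hsq : ∀ h ∈ Q ^ 2, constantCoeff h ∈ Ideal.span {π} ^ 2 := by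
        intro h hh
        have h1 : (Q ^ 2).map (constantCoeff (σ := σ) (R := R)) ≤ Ideal.span {π} ^ 2 := by
          rw [Ideal.map_pow]
          refine Ideal.pow_right_mono ?_ 2
          rw [Ideal.map_le_iff_le_comap]
          intro z hz
          rw [Ideal.mem_comap]
          exact (hcon z).1 hz
        exact h1 (Ideal.mem_map_of_mem _ hh)
      have hmod : k - 2 * J = 0 ∨ k - 2 * J = 1 := by omega
      rcases hmod with h0 | h1
      · exfalso
        rw [h0, pow_zero, one_mul] at hE2
        have h2 : (C u : MvPolynomial σ R) = E - homogeneousComponent 2 g - C π * T := by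
          rw [hE2]; ring
        have h3 : (C u : MvPolynomial σ R) ∈ Q := by
          rw [h2]
          exact Q.sub_mem (Q.sub_mem hEQ (Ideal.pow_le_self two_ne_zero hg2))
            (Q.mul_mem_right _ hπQ)
        exact (hCQ u).1 h3 hu
      · rw [h1, pow_one] at hE2
        have hcrit : ∀ h, h ∉ Q → h * E ∉ Q ^ 2 := by
          intro h hh hhE
          apply hh
          have h2 : h * C (π * u) = h * E - h * homogeneousComponent 2 g - h * (C π * T) := by
            rw [hE2]; ring
          have h3 : h * C (π * u) ∈ Q ^ 2 := by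
            rw [h2]
            refine Ideal.sub_mem _ (Ideal.sub_mem _ hhE (Ideal.mul_mem_left _ _ hg2))
              (Ideal.mul_mem_left _ _ ?_)
            rw [pow_two]
            exact Ideal.mul_mem_mul hπQ hTQ
          have h4 := hsq _ h3
          rw [map_mul, constantCoeff_C, Ideal.span_singleton_pow, Ideal.mem_span_singleton] at h4
          obtain ⟨c, hc⟩ := h4
          rw [hcon, Ideal.mem_span_singleton]
          have h5 : constantCoeff h * u = π * c := by
            apply mul_left_cancel₀ hπ0
            linear_combination hc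
          obtain ⟨u', rfl⟩ := hu
          refine ⟨c * ((u'⁻¹ : Rˣ) : R), ?_⟩
          have h6 : (u' : R) * ((u'⁻¹ : Rˣ) : R) = 1 := Units.mul_inv u'
          linear_combination ((u'⁻¹ : Rˣ) : R) * h5 - constantCoeff h * h6
        have hid : (q.comap (pr : _ →+* A)).map (RingHom.id _) = Q := Ideal.map_id _
        refine reg_crit_one (W := MvPolynomial σ R) (pr : _ →+* A) hpr {E}
          (by rw [Finset.coe_singleton]; exact hprk) q (RingHom.id _)
          (fun z => ⟨z, rfl⟩) ?_ ∅ (by simp) ?_ E hEq ?_ ?_
        · intro z hz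
          have h0 : z = 0 := by simpa using hz
          rw [h0]
          exact Ideal.zero_mem _
        · intro z hz
          have h0 : z = 0 := by simpa using hz
          refine ⟨1, ?_, ?_⟩
          · rw [map_one]
            exact (Ideal.ne_top_iff_one q).1 hq.ne_top
          · rw [h0, mul_zero, map_zero]
            exact Ideal.zero_mem _
        · intro c hc
          rw [hid] at hc ⊢
          exact hcrit c hc
        · simp
  · rw [hpr0, hE1]
    exact Ideal.mul_mem_left _ _ (Ideal.mem_span_singleton_self _)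
  · convert hj₀ using 2 with j
    exact heY _
  · intro w
    have key : ∀ w : MvPolynomial σ R, ∃ (N : ℕ) (p : MvPolynomial σ R),
        C (π ^ N) * w = aeval (fun l => C (π ^ J) * X l : σ → MvPolynomial σ R) p := by
      intro w
      induction w using MvPolynomial.induction_on with
      | C r => exact ⟨0, C r, by rw [pow_zero, C_1, one_mul, aeval_C]; rfl⟩
      | add p q hp hq =>
        obtain ⟨N, a, ha⟩ := hp
        obtain ⟨M, b, hb⟩ := hq
        refine ⟨N + M, C (π ^ M) * a + C (π ^ N) * b, ?_⟩
        rw [map_add, map_mul, map_mul, ← ha, ← hb, aeval_C, aeval_C, pow_add, C_mul]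
        simp only [algebraMap_eq]
        ring
      | mul_X p j hp =>
        obtain ⟨N, a, ha⟩ := hp
        refine ⟨N + J, a * X j, ?_⟩
        rw [map_mul, ← ha, aeval_X, pow_add, C_mul]
        ring
    obtain ⟨N, p, hp⟩ := key w
    refine ⟨p, C (π ^ N), ?_, ?_⟩
    · rw [aeval_C, algebraMap_eq, heC]
      exact hfac N
    · rw [aeval_C, algebraMap_eq, hp]

end Pool.Agent.U41.OD
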